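import Pool.Agent.W544.KF.Defs2

/-! Project KF, part REC: the recursion for the partial traces. -/

set_option autoImplicit false

open CategoryTheory MonoidalCategory

namespace Pool.Agent.W273.KF

open Pool.Agent.W544.KF

universe w v u

section aux

variable {D : Type u} [Category.{v} D] [MonoidalCategory D] [SymmetricCategory D]
  [Preadditive D] [MonoidalPreadditive D] {F : Type w} [Field F] [Linear F D]

lemma absA (hb : S_basic.{v,u}) (ht : S_tens.{v,u}) (hsup : S_sup.{v,u}) (hy : S_yank.{v,u})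
    {M M' X X' : D} [ExactPairing M M'] [ExactPairing X X'] (Y : M ⊗ X ⟶ M ⊗ X) :
    ptr (A := M) (B := M) (M ⊗ X) (X' ⊗ M') (M ◁ Y ≫ (α_ M M X).inv ≫
        (β_ M M).hom ▷ X ≫ (α_ M M X).hom) = ptr (A := M) (B := M) X X' Y := by
  rw [ht D M X M' X' M M]
  have e1 : (α_ M M X).hom ≫ (M ◁ Y ≫ (α_ M M X).inv ≫
      (β_ M M).hom ▷ X ≫ (α_ M M X).hom) ≫ (α_ M M X).inv =
      ((α_ M M X).hom ≫ M ◁ Y ≫ (α_ M M X).inv) ≫ (β_ M M).hom ▷ X := by
    simp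
  rw [e1, (hb D X X').2.2, hsup D X X' M M M Y,
    BraidedCategory.braiding_naturality_right, (hb D M M').2.2, hy D M M', Category.id_comp]

lemma keyA (hb : S_basic.{v,u}) (ht : S_tens.{v,u}) (hsup : S_sup.{v,u}) (hy : S_yank.{v,u})
    (s : F) {M M' : D} [ExactPairing M M'] (g : M ⟶ M) (n : ℕ) :
    (letI := pex M M' n; ptr (A := M) (B := M) (pw M n) (pd M' n)
      (M ◁ (pm g n ≫ sy F s M n) ≫ sw M n)) = LL F s (M' := M') g n := by
  cases n with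
  | zero =>
    show ptr (A := M) (B := M) M M' (M ◁ (g ≫ 𝟙 M) ≫ (β_ M M).hom) = g
    rw [Category.comp_id, BraidedCategory.braiding_naturality_right, (hb D M M').2.2, hy D M M',
      Category.id_comp]
  | succ k =>
    letI := pex M M' k
    exact absA hb ht hsup hy (M := M) (M' := M') (X := pw M k) (X' := pd M' k)
      (pm g (k + 1) ≫ sy F s M (k + 1))

lemma keyB (htt : S_TT.{v,u}) (s : F) {M M' : D} [ExactPairing M M'] (g : M ⟶ M) (n : ℕ) :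
    (letI := pex M M' n; TT (pw M n) (pd M' n) (pm g n ≫ sy F s M n)) =
      TT M M' (LL F s (M' := M') g n) := by
  cases n with
  | zero =>
    show TT M M' (g ≫ 𝟙 M) = TT M M' g
    rw [Category.comp_id]
  | succ k =>
    letI := pex M M' k
    exact (htt D (pw M k) (pd M' k)).2.2 M M' (pm g (k + 1) ≫ sy F s M (k + 1))

lemma ptr_smul (hb : S_basic.{v,u}) [MonoidalLinear F D] (X Y : D) [ExactPairing X Y] (A B : D)
    (c : F) (f : A ⊗ X ⟶ B ⊗ X) : ptr X Y (c • f) = c • ptr X Y f := by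
  have h := (hb D X Y).2.1 A A B (c • 𝟙 A) f
  have e : (c • 𝟙 A) ▷ X ≫ f = c • f := by
    rw [MonoidalLinear.smul_whiskerRight, id_whiskerRight, Linear.smul_comp, Category.id_comp]
  rw [e, Linear.smul_comp, Category.id_comp] at h
  exact h

lemma absmain (hb : S_basic.{v,u}) (hsl : S_slide.{v,u}) (htt : S_TT.{v,u})
    [MonoidalLinear F D] {M X X' : D} [ExactPairing X X'] (n : ℕ) (s : F) (g : M ⟶ M)
    (p e : X ⟶ X) (S : M ⊗ X ⟶ M ⊗ X) (L : M ⟶ M) (t : F) (hidem : e ≫ e = e)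
    (hcomm : p ≫ e = e ≫ p) (hn : ((n : F) + 2) ≠ 0)
    (hT : TT X X' (p ≫ e) = t • 𝟙 (𝟙_ D))
    (hA : ptr (A := M) (B := M) X X' (M ◁ (p ≫ e) ≫ S) = L) :
    ((n : F) + 2) • ptr (A := M) (B := M) X X' ((g ⊗ₘ p) ≫ (((n : F) + 2)⁻¹ • ((M ◁ e) +
      (s * ((n : F) + 1)) • (M ◁ e ≫ S ≫ M ◁ e)))) =
    t • g + (s * ((n : F) + 1)) • (g ≫ L) := by
  have hpm : g ⊗ₘ p = g ▷ X ≫ M ◁ p := MonoidalCategory.tensorHom_def g p
  have e1 : (g ▷ X ≫ M ◁ p) ≫ M ◁ e = g ▷ X ≫ M ◁ (p ≫ e) := by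
    rw [Category.assoc, ← MonoidalCategory.whiskerLeft_comp]
  have t1 : ptr (A := M) (B := M) X X' ((g ▷ X ≫ M ◁ p) ≫ M ◁ e) = t • g := by
    rw [e1, (hb D X X').2.1, (htt D X X').2.1, hT, MonoidalLinear.whiskerLeft_smul,
      MonoidalCategory.whiskerLeft_id]
    simp
  have t2 : ptr (A := M) (B := M) X X' ((g ▷ X ≫ M ◁ p) ≫ (M ◁ e ≫ S ≫ M ◁ e)) = g ≫ L := by
    have e2 : (g ▷ X ≫ M ◁ p) ≫ (M ◁ e ≫ S ≫ M ◁ e) =
        ((g ▷ X ≫ M ◁ p) ≫ M ◁ e ≫ S) ≫ M ◁ e := by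
      simp only [Category.assoc]
    have e3 : M ◁ e ≫ ((g ▷ X ≫ M ◁ p) ≫ M ◁ e ≫ S) = g ▷ X ≫ (M ◁ (p ≫ e) ≫ S) := by
      have e4 : M ◁ e ≫ g ▷ X = g ▷ X ≫ M ◁ e := whisker_exchange g e
      have e5 : e ≫ p ≫ e = p ≫ e := by
        rw [← Category.assoc, ← hcomm, Category.assoc, hidem]
      calc M ◁ e ≫ ((g ▷ X ≫ M ◁ p) ≫ M ◁ e ≫ S)
          = (M ◁ e ≫ g ▷ X) ≫ M ◁ p ≫ M ◁ e ≫ S := by
            simp only [Category.assoc]
        _ = g ▷ X ≫ (M ◁ (e ≫ p ≫ e)) ≫ S := by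
            rw [e4]
            simp only [Category.assoc, MonoidalCategory.whiskerLeft_comp]
        _ = _ := by rw [e5]
    rw [e2, hsl D X X' M M, e3, (hb D X X').2.1, hA]
  rw [hpm, Linear.comp_smul, ptr_smul hb, Preadditive.comp_add, Linear.comp_smul,
    (hb D X X').1, ptr_smul hb, t1, t2, smul_smul, mul_inv_cancel₀ hn, one_smul]

end aux

theorem rec (hb : S_basic.{v,u}) (hsl : S_slide.{v,u}) (ht : S_tens.{v,u}) (hsup : S_sup.{v,u})
    (hy : S_yank.{v,u}) (htt : S_TT.{v,u}) (hsw : S_sw.{v,u}) (hsy : S_sy.{w,v,u}) :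
    S_rec.{w,v,u} := by
  intro F _ _ D _ _ _ _ _ _ _ s hs M M' _ g n t hT
  obtain ⟨hidem, -, -, -, hcomm⟩ := hsy F D s hs M
  have hn : ((n : F) + 2) ≠ 0 := by
    have : ((n + 2 : ℕ) : F) ≠ 0 := Nat.cast_ne_zero.mpr (by omega)
    push_cast at this
    exact this
  letI := pex M M' n
  exact absmain (X := pw M n) (X' := pd M' n) hb hsl htt n s g (pm g n) (sy F s M n) (sw M n)
    (LL F s (M' := M') g n) t (hidem n) (hcomm n g) hn ((keyB htt s g n).trans hT)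
    (keyA hb ht hsup hy s g n)

end Pool.Agent.W273.KF
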